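import Pool.Agent.Helper27.HFData

/-!
# Parallel flips in triangulations of point sets: the happy edge property fails

A set of 20 points in general position (a double chain with an apex at each end) and two
triangulations `T`, `T'` of it such that 14 parallel flips lead from `T` to `T'`, while every path
of parallel flips that keeps all common edges of `T` and `T'` has length at least 15.
-/

set_option autoImplicit false

namespace Pool.Agent.Results.MP_797cb5_co.UnhappyEdge

/-- `e` is an admissible segment of the point set `S`: it is given by its two endpoints, both in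
`S`, and no other point of `S` lies on it. The straight-line segment is `convexHull ℝ e`. -/
def IsSeg (S e : Finset (ℝ × ℝ)) : Prop :=
  e ⊆ S ∧ e.card = 2 ∧ ∀ c ∈ S, c ∈ convexHull ℝ (e : Set (ℝ × ℝ)) → c ∈ e

/-- Two segments cross if they meet at a point that is not an endpoint of either. -/
def Cross (e f : Finset (ℝ × ℝ)) : Prop :=
  ∃ z, z ∈ convexHull ℝ (e : Set (ℝ × ℝ)) ∧ z ∈ convexHull ℝ (f : Set (ℝ × ℝ)) ∧ z ∉ e ∧ z ∉ f

/-- `T` is a triangulation of `S`: a maximal set of pairwise non-crossing admissible segments. -/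
structure IsTriangulation (S : Finset (ℝ × ℝ)) (T : Set (Finset (ℝ × ℝ))) : Prop where
  seg : ∀ e ∈ T, IsSeg S e
  noncrossing : ∀ e ∈ T, ∀ f ∈ T, e ≠ f → ¬ Cross e f
  maximal : ∀ e, IsSeg S e → (∀ f ∈ T, e ≠ f → ¬ Cross e f) → e ∈ T

/-- `D` is (the vertex set of) a triangle of `T`: its three sides are edges of `T` and it contains
no other point of `S`. -/
def IsTriangle (S : Finset (ℝ × ℝ)) (T : Set (Finset (ℝ × ℝ))) (D : Finset (ℝ × ℝ)) : Prop :=
  D.card = 3 ∧ (∀ e ⊆ D, e.card = 2 → e ∈ T) ∧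
    ∀ c ∈ S, c ∈ convexHull ℝ (D : Set (ℝ × ℝ)) → c ∈ D

/-- One parallel flip turns the triangulation `T` into the triangulation `T'`: a set `E` of edges,
no two of which are edges of a common triangle of `T`, is removed and a set `E'` is added. -/
def ParallelFlip (S : Finset (ℝ × ℝ)) (T T' : Set (Finset (ℝ × ℝ))) : Prop :=
  IsTriangulation S T ∧ IsTriangulation S T' ∧
    ∃ E E' : Set (Finset (ℝ × ℝ)), E ⊆ T ∧
      (∀ e ∈ E, ∀ f ∈ E, e ≠ f → ¬ ∃ D, IsTriangle S T D ∧ e ⊆ D ∧ f ⊆ D) ∧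
      T' = (T \ E) ∪ E'

/-- `τ 0, …, τ n` is a path of length `n` of parallel flips from `T` to `T'`. -/
def IsPath (S : Finset (ℝ × ℝ)) (T T' : Set (Finset (ℝ × ℝ))) (n : ℕ)
    (τ : ℕ → Set (Finset (ℝ × ℝ))) : Prop :=
  τ 0 = T ∧ τ n = T' ∧ ∀ i < n, ParallelFlip S (τ i) (τ (i + 1))

/-- A path of length `n` from `T` to `T'` such that no path from `T` to `T'` is shorter. -/
def IsShortestPath (S : Finset (ℝ × ℝ)) (T T' : Set (Finset (ℝ × ℝ))) (n : ℕ)
    (τ : ℕ → Set (Finset (ℝ × ℝ))) : Prop :=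
  IsPath S T T' n τ ∧ ∀ m σ, IsPath S T T' m σ → n ≤ m

open Helper27.HF

section Bridge

/-- The points. -/
noncomputable def P (i : ℕ) : ℝ × ℝ := ((X i : ℝ), (Y i : ℝ))

/-- The point set. -/
noncomputable def S₀ : Finset (ℝ × ℝ) := (Finset.range 20).image P

/-- The segment with indices `i`, `j`. -/
noncomputable def ed (i j : ℕ) : Finset (ℝ × ℝ) := {P i, P j}

theorem det_P (i j k : ℕ) : det (P i) (P j) (P k) = (DZ i j k : ℝ) := by
  unfold det P DZ
  push_cast
  ring

theorem mem_rng {i : ℕ} (hi : i < 20) : i ∈ rng := List.mem_range.mpr hi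

theorem or_spec {i j k : ℕ} (hi : i < 20) (hj : j < 20) (hk : k < 20) (hij : i ≠ j) (hik : i ≠ k)
    (hjk : j ≠ k) : (orB i j k = true ∧ 0 < det (P i) (P j) (P k)) ∨
      (orB i j k = false ∧ det (P i) (P j) (P k) < 0) := by
  have h := chkOr_true
  unfold chkOr at h
  rw [List.all_eq_true] at h
  have h1 := h i (mem_rng hi)
  rw [List.all_eq_true] at h1
  have h2 := h1 j (mem_rng hj)
  rw [List.all_eq_true] at h2
  have h3 := h2 k (mem_rng hk)
  rw [det_P]
  simp only [Bool.or_eq_true, beq_iff_eq, hij, hik, hjk, false_or] at h3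
  cases ho : orB i j k
  · right
    rw [ho] at h3
    simp at h3
    exact ⟨rfl, by exact_mod_cast h3⟩
  · left
    rw [ho] at h3
    simp at h3
    exact ⟨rfl, by exact_mod_cast h3⟩

theorem det_ne {i j k : ℕ} (hi : i < 20) (hj : j < 20) (hk : k < 20) (hij : i ≠ j) (hik : i ≠ k)
    (hjk : j ≠ k) : det (P i) (P j) (P k) ≠ 0 := by
  rcases or_spec hi hj hk hij hik hjk with h | h
  · exact h.2.ne'
  · exact h.2.ne

theorem P_inj {i j : ℕ} (hi : i < 20) (hj : j < 20) (h : P i = P j) : i = j := by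
  by_contra hij
  obtain ⟨k, hk, hki, hkj⟩ : ∃ k < 20, i ≠ k ∧ j ≠ k := by
    by_cases h0 : i ≠ 0 ∧ j ≠ 0
    · exact ⟨0, by norm_num, h0.1, h0.2⟩
    · by_cases h1 : i ≠ 1 ∧ j ≠ 1
      · exact ⟨1, by norm_num, h1.1, h1.2⟩
      · exact ⟨2, by norm_num, by omega, by omega⟩
  apply det_ne hi hj hk hij hki hkj
  rw [h]
  simp [det]

theorem prod_neg_iff {i j k l : ℕ} (hi : i < 20) (hj : j < 20) (hk : k < 20) (hl : l < 20)
    (hij : i ≠ j) (hik : i ≠ k) (hjk : j ≠ k) (hil : i ≠ l) (hjl : j ≠ l) :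
    (orB i j k != orB i j l) = true ↔
      det (P i) (P j) (P k) * det (P i) (P j) (P l) < 0 := by
  rcases or_spec hi hj hk hij hik hjk with h1 | h1 <;>
    rcases or_spec hi hj hl hij hil hjl with h2 | h2 <;> rw [h1.1, h2.1]
  · simp
    exact (mul_pos h1.2 h2.2).le
  · simp
    exact mul_neg_of_pos_of_neg h1.2 h2.2
  · simp
    exact mul_neg_of_neg_of_pos h1.2 h2.2
  · simp
    exact (mul_pos_of_neg_of_neg h1.2 h2.2).le

theorem coe_ed (i j : ℕ) : ((ed i j : Finset (ℝ × ℝ)) : Set (ℝ × ℝ)) = {P i, P j} := by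
  simp [ed]

theorem cross_of {i j k l : ℕ} (hi : i < 20) (hj : j < 20) (hk : k < 20) (hl : l < 20)
    (hij : i ≠ j) (hkl : k ≠ l) (h : crossB i j k l = true) : Cross (ed i j) (ed k l) := by
  unfold crossB at h
  simp only [Bool.and_eq_true, Bool.not_eq_true', beq_eq_false_iff_ne] at h
  obtain ⟨⟨⟨⟨⟨hik, hil⟩, hjk⟩, hjl⟩, h1⟩, h2⟩ := h
  rw [prod_neg_iff hi hj hk hl hij hik hjk hil hjl] at h1
  rw [prod_neg_iff hk hl hi hj hkl hik.symm hil.symm hjk.symm hjl.symm] at h2
  obtain ⟨z, hz1, hz2, ha, hb, hc, hd⟩ := cross_of_det h1 h2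
  refine ⟨z, ?_, ?_, ?_, ?_⟩
  · rw [coe_ed]; exact hz1
  · rw [coe_ed]; exact hz2
  · simp [ed, ha, hb]
  · simp [ed, hc, hd]

theorem ed_comm (i j : ℕ) : ed i j = ed j i := by
  unfold ed
  exact Finset.pair_comm _ _

theorem of_cross {i j k l : ℕ} (hi : i < 20) (hj : j < 20) (hk : k < 20) (hl : l < 20)
    (hij : i ≠ j) (hkl : k ≠ l) (hne : ed i j ≠ ed k l) (h : Cross (ed i j) (ed k l)) :
    crossB i j k l = true := by
  obtain ⟨z, hz1, hz2, h1, h2⟩ := h
  rw [coe_ed] at hz1 hz2
  simp only [ed, Finset.mem_insert, Finset.mem_singleton, not_or] at h1 h2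
  have hik : i ≠ k := by
    rintro rfl
    have hjl : j ≠ l := by rintro rfl; exact hne rfl
    exact no_meet_shared hz1 hz2 h1.1 (det_ne hi hj hl hij hkl hjl)
  have hil : i ≠ l := by
    rintro rfl
    have hjk : j ≠ k := by rintro rfl; exact hne (ed_comm _ _)
    rw [Set.pair_comm] at hz2
    exact no_meet_shared hz1 hz2 h1.1 (det_ne hi hj hk hij hkl.symm hjk)
  have hjk : j ≠ k := by
    rintro rfl
    rw [Set.pair_comm] at hz1
    exact no_meet_shared hz1 hz2 h1.2 (det_ne hj hi hl hij.symm hkl hil)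
  have hjl : j ≠ l := by
    rintro rfl
    rw [Set.pair_comm] at hz1 hz2
    exact no_meet_shared hz1 hz2 h1.2 (det_ne hj hi hk hij.symm hkl.symm hik)
  unfold crossB
  simp only [Bool.and_eq_true, Bool.not_eq_true', beq_eq_false_iff_ne]
  refine ⟨⟨⟨⟨⟨hik, hil⟩, hjk⟩, hjl⟩, ?_⟩, ?_⟩
  · rw [prod_neg_iff hi hj hk hl hij hik hjk hil hjl]
    exact half_of_meet hz1 hz2 h2.1 h2.2 (det_ne hi hj hl hij hil hjl)
  · rw [prod_neg_iff hk hl hi hj hkl hik.symm hil.symm hjk.symm hjl.symm]
    exact half_of_meet hz2 hz1 h1.1 h1.2 (det_ne hk hl hj hkl hjk.symm hjl.symm)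

theorem card_ed {i j : ℕ} (hi : i < 20) (hj : j < 20) (hij : i ≠ j) : (ed i j).card = 2 := by
  unfold ed
  exact Finset.card_pair (fun h => hij (P_inj hi hj h))

theorem P_mem {i : ℕ} (hi : i < 20) : P i ∈ S₀ :=
  Finset.mem_image.mpr ⟨i, Finset.mem_range.mpr hi, rfl⟩

theorem isSeg_ed {i j : ℕ} (hi : i < 20) (hj : j < 20) (hij : i ≠ j) : IsSeg S₀ (ed i j) := by
  refine ⟨?_, card_ed hi hj hij, ?_⟩
  · intro z hz
    simp only [ed, Finset.mem_insert, Finset.mem_singleton] at hz
    rcases hz with rfl | rfl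
    · exact P_mem hi
    · exact P_mem hj
  · intro c hc hz
    obtain ⟨k, hk, rfl⟩ := Finset.mem_image.mp hc
    rw [Finset.mem_range] at hk
    by_contra hcon
    simp only [ed, Finset.mem_insert, Finset.mem_singleton, not_or] at hcon
    have hik : i ≠ k := by rintro rfl; exact hcon.1 rfl
    have hjk : j ≠ k := by rintro rfl; exact hcon.2 rfl
    rw [coe_ed] at hz
    obtain ⟨t, _, _, hx, hy⟩ := mem_hull_pair hz
    exact det_ne hi hj hk hij hik hjk (det_on_line hx hy)

theorem exists_ed {e : Finset (ℝ × ℝ)} (he : IsSeg S₀ e) :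
    ∃ i j, i < j ∧ j < 20 ∧ e = ed i j := by
  obtain ⟨h1, h2, _⟩ := he
  obtain ⟨a, b, hab, rfl⟩ := Finset.card_eq_two.mp h2
  obtain ⟨i, hi, rfl⟩ := Finset.mem_image.mp (h1 (Finset.mem_insert_self _ _))
  obtain ⟨j, hj, rfl⟩ := Finset.mem_image.mp
    (h1 (Finset.mem_insert_of_mem (Finset.mem_singleton_self b)))
  rw [Finset.mem_range] at hi hj
  have hij : i ≠ j := by rintro rfl; exact hab rfl
  rcases lt_or_gt_of_ne hij with h | h
  · exact ⟨i, j, h, hj, rfl⟩
  · exact ⟨j, i, h, hi, ed_comm i j⟩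

theorem ed_inj {i j k l : ℕ} (hij : i < j) (hj : j < 20) (hkl : k < l) (hl : l < 20)
    (h : ed i j = ed k l) : i = k ∧ j = l := by
  have hi : i < 20 := by omega
  have hk : k < 20 := by omega
  have h1 : P i ∈ ed k l := by rw [← h]; simp [ed]
  have h2 : P j ∈ ed k l := by rw [← h]; simp [ed]
  simp only [ed, Finset.mem_insert, Finset.mem_singleton] at h1 h2
  rcases h1 with h1 | h1 <;> rcases h2 with h2 | h2
  · have := P_inj hi hk h1
    have := P_inj hj hk h2
    omega
  · exact ⟨P_inj hi hk h1, P_inj hj hl h2⟩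
  · have := P_inj hi hl h1
    have := P_inj hj hk h2
    omega
  · have := P_inj hi hl h1
    have := P_inj hj hl h2
    omega

theorem inside_of_hull {a b c m : ℕ} (ha : a < 20) (hb : b < 20) (hc : c < 20) (hm : m < 20)
    (hab : a ≠ b) (hac : a ≠ c) (hbc : b ≠ c) (hma : m ≠ a) (hmb : m ≠ b) (hmc : m ≠ c)
    (h : P m ∈ convexHull ℝ ({P a, P b, P c} : Set (ℝ × ℝ))) : insideB a b c m = true := by
  have h' : P m ∈ convexHull ℝ ({P b, P c, P a} : Set (ℝ × ℝ)) := by
    have e : ({P b, P c, P a} : Set (ℝ × ℝ)) = {P a, P b, P c} := by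
      ext z; simp only [Set.mem_insert_iff, Set.mem_singleton_iff]; tauto
    rw [e]; exact h
  have h'' : P m ∈ convexHull ℝ ({P c, P a, P b} : Set (ℝ × ℝ)) := by
    have e : ({P c, P a, P b} : Set (ℝ × ℝ)) = {P a, P b, P c} := by
      ext z; simp only [Set.mem_insert_iff, Set.mem_singleton_iff]; tauto
    rw [e]; exact h
  have e1 : det (P b) (P c) (P a) = det (P a) (P b) (P c) := by unfold det; ring
  have e2 : det (P c) (P a) (P b) = det (P a) (P b) (P c) := by unfold det; ring
  unfold insideB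
  simp only [Bool.and_eq_true, Bool.not_eq_true', beq_eq_false_iff_ne, beq_iff_eq]
  have o1 := or_spec ha hb hm hab hma.symm hmb.symm
  have o2 := or_spec hb hc hm hbc hmb.symm hmc.symm
  have o3 := or_spec hc ha hm hac.symm hmc.symm hma.symm
  rcases or_spec ha hb hc hab hac hbc with h0 | h0
  · have s1 := hull_triple_sign h 1 (by rw [one_mul]; exact h0.2.le)
    have s2 := hull_triple_sign h' 1 (by rw [one_mul, e1]; exact h0.2.le)
    have s3 := hull_triple_sign h'' 1 (by rw [one_mul, e2]; exact h0.2.le)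
    rw [one_mul] at s1 s2 s3
    refine ⟨⟨⟨⟨⟨hma, hmb⟩, hmc⟩, ?_⟩, ?_⟩, ?_⟩
    · rcases o1 with o | o
      · rw [o.1, h0.1]
      · linarith [o.2]
    · rcases o2 with o | o
      · rw [o.1, h0.1]
      · linarith [o.2]
    · rcases o3 with o | o
      · rw [o.1, h0.1]
      · linarith [o.2]
  · have s1 := hull_triple_sign h (-1) (by linarith [h0.2])
    have s2 := hull_triple_sign h' (-1) (by rw [e1]; linarith [h0.2])
    have s3 := hull_triple_sign h'' (-1) (by rw [e2]; linarith [h0.2])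
    refine ⟨⟨⟨⟨⟨hma, hmb⟩, hmc⟩, ?_⟩, ?_⟩, ?_⟩
    · rcases o1 with o | o
      · linarith [o.2]
      · rw [o.1, h0.1]
    · rcases o2 with o | o
      · linarith [o.2]
      · rw [o.1, h0.1]
    · rcases o3 with o | o
      · linarith [o.2]
      · rw [o.1, h0.1]

theorem hull_of_inside {a b c m : ℕ} (ha : a < 20) (hb : b < 20) (hc : c < 20) (hm : m < 20)
    (hab : a ≠ b) (hac : a ≠ c) (hbc : b ≠ c) (h : insideB a b c m = true) :
    m ≠ a ∧ m ≠ b ∧ m ≠ c ∧ P m ∈ convexHull ℝ ({P a, P b, P c} : Set (ℝ × ℝ)) := by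
  unfold insideB at h
  simp only [Bool.and_eq_true, Bool.not_eq_true', beq_eq_false_iff_ne, beq_iff_eq] at h
  obtain ⟨⟨⟨⟨⟨hma, hmb⟩, hmc⟩, h1⟩, h2⟩, h3⟩ := h
  refine ⟨hma, hmb, hmc, ?_⟩
  have o1 := or_spec ha hb hm hab hma.symm hmb.symm
  have o2 := or_spec hb hc hm hbc hmb.symm hmc.symm
  have o3 := or_spec hc ha hm hac.symm hmc.symm hma.symm
  rcases or_spec ha hb hc hab hac hbc with h0 | h0
  · rw [h0.1] at h1 h2 h3
    rw [h1] at o1
    rw [h2] at o2
    rw [h3] at o3
    simp at o1 o2 o3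
    exact hull_triple_of 1 (by rw [one_mul]; exact h0.2) (by linarith) (by linarith) (by linarith)
  · rw [h0.1] at h1 h2 h3
    rw [h1] at o1
    rw [h2] at o2
    rw [h3] at o3
    simp at o1 o2 o3
    exact hull_triple_of (-1) (by linarith [h0.2]) (by linarith) (by linarith) (by linarith)

/-- The set of segments given by a list of index pairs. -/
def TS (L : List (ℕ × ℕ)) : Set (Finset (ℝ × ℝ)) := {e | ∃ p ∈ L, e = ed p.1 p.2}

theorem chk_lt {L : List (ℕ × ℕ)} (h : chkTri L = true) {p : ℕ × ℕ} (hp : p ∈ L) :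
    p.1 < p.2 ∧ p.2 < 20 := by
  unfold chkTri at h
  simp only [Bool.and_eq_true, List.all_eq_true, decide_eq_true_eq] at h
  exact h.1.1 p hp

theorem isTri_of_chk {L : List (ℕ × ℕ)} (h : chkTri L = true) : IsTriangulation S₀ (TS L) := by
  have hlt := fun p hp => chk_lt h (p := p) hp
  unfold chkTri at h
  simp only [Bool.and_eq_true, List.all_eq_true, decide_eq_true_eq, Bool.or_eq_true,
    Bool.not_eq_true', beq_iff_eq] at h
  obtain ⟨⟨_, h2⟩, h3⟩ := h
  refine ⟨?_, ?_, ?_⟩
  · rintro e ⟨p, hp, rfl⟩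
    have := hlt p hp
    exact isSeg_ed (by omega) this.2 this.1.ne
  · rintro e ⟨p, hp, rfl⟩ f ⟨q, hq, rfl⟩ hne hcr
    have h4 := hlt p hp
    have h5 := hlt q hq
    have h6 := of_cross (by omega) h4.2 (by omega) h5.2 h4.1.ne h5.1.ne hne hcr
    rcases h2 p hp q hq with h7 | h7
    · rw [h7] at hne
      exact hne rfl
    · rw [h6] at h7
      exact absurd h7 (by simp)
  · intro e he hmax
    obtain ⟨i, j, hij, hj, rfl⟩ := exists_ed he
    rcases h3 i (mem_rng (by omega)) j (mem_rng hj) with (h4 | h4) | h4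
    · rw [decide_eq_false_iff_not] at h4
      exact absurd hij h4
    · exact ⟨(i, j), List.contains_iff_mem.mp h4, rfl⟩
    · rw [List.any_eq_true] at h4
      obtain ⟨q, hq, hcr⟩ := h4
      have h5 := hlt q hq
      by_contra hcon
      apply hmax (ed q.1 q.2) ⟨q, hq, rfl⟩ _
        (cross_of (by omega) hj (by omega) h5.2 hij.ne h5.1.ne hcr)
      rintro heq
      exact hcon ⟨q, hq, heq⟩

theorem third_contra {L : List (ℕ × ℕ)} (hL : chkTri L = true) {a b c : ℕ} (ha : a < 20)
    (hb : b < 20) (hc : c < 20) (hab : a ≠ b) (hac : a ≠ c) (hbc : b ≠ c)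
    {D : Finset (ℝ × ℝ)} (hD : IsTriangle S₀ (TS L) D) (h1 : ed a b ⊆ D) (h2 : ed a c ⊆ D)
    (hbad : bad L a b c = false) : False := by
  have hcard : ({P a, P b, P c} : Finset (ℝ × ℝ)).card = 3 := by
    rw [Finset.card_eq_three]
    exact ⟨P a, P b, P c, fun h => hab (P_inj ha hb h), fun h => hac (P_inj ha hc h),
      fun h => hbc (P_inj hb hc h), rfl⟩
  have hsub : ({P a, P b, P c} : Finset (ℝ × ℝ)) ⊆ D := by
    intro z hz
    simp only [Finset.mem_insert, Finset.mem_singleton] at hz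
    rcases hz with rfl | rfl | rfl
    · exact h1 (by simp [ed])
    · exact h1 (by simp [ed])
    · exact h2 (by simp [ed])
  have hDe : ({P a, P b, P c} : Finset (ℝ × ℝ)) = D :=
    Finset.eq_of_subset_of_card_le hsub (by rw [hD.1, hcard])
  have h3 : ed b c ∈ TS L := by
    apply hD.2.1 _ _ (card_ed hb hc hbc)
    rw [← hDe]
    intro z hz
    simp only [ed, Finset.mem_insert, Finset.mem_singleton] at hz ⊢
    tauto
  have h4 : has L b c = true := by
    obtain ⟨r, hr, he⟩ := h3
    have hlt := chk_lt hL hr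
    unfold has
    rcases lt_or_gt_of_ne hbc with h | h
    · obtain ⟨h5, h6⟩ := ed_inj h hc hlt.1 hlt.2 he
      have : r = (b, c) := by rw [h5, h6]
      rw [this] at hr
      rw [List.contains_iff_mem.mpr hr]
      simp
    · rw [ed_comm] at he
      obtain ⟨h5, h6⟩ := ed_inj h hb hlt.1 hlt.2 he
      have : r = (c, b) := by rw [h5, h6]
      rw [this] at hr
      rw [List.contains_iff_mem.mpr hr]
      simp
  unfold bad at hbad
  rw [h4] at hbad
  simp only [Bool.true_and, Bool.not_eq_false', List.any_eq_true] at hbad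
  obtain ⟨m, hm, hin⟩ := hbad
  have hm' : m < 20 := List.mem_range.mp hm
  obtain ⟨hma, hmb, hmc, hh⟩ := hull_of_inside ha hb hc hm' hab hac hbc hin
  have h5 : P m ∈ D := by
    apply hD.2.2 _ (P_mem hm')
    rw [← hDe]
    simpa using hh
  rw [← hDe] at h5
  simp only [Finset.mem_insert, Finset.mem_singleton] at h5
  rcases h5 with h5 | h5 | h5
  · exact hma (P_inj hm' ha h5)
  · exact hmb (P_inj hm' hb h5)
  · exact hmc (P_inj hm' hc h5)

theorem flip_of_chk {L L' : List (ℕ × ℕ)} (hL : chkTri L = true) (hL' : chkTri L' = true)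
    (h : chkFlip L L' = true) : ParallelFlip S₀ (TS L) (TS L') := by
  refine ⟨isTri_of_chk hL, isTri_of_chk hL', TS L \ TS L', TS L' \ TS L, Set.sdiff_subset, ?_, ?_⟩
  · rintro e ⟨⟨p, hp, rfl⟩, hp'⟩ f ⟨⟨q, hq, rfl⟩, hq'⟩ hne ⟨D, hD, he, hf⟩
    have hp1 : p ∉ L' := fun hh => hp' ⟨p, hh, rfl⟩
    have hq1 : q ∉ L' := fun hh => hq' ⟨q, hh, rfl⟩
    have hpq : p ≠ q := by rintro rfl; exact hne rfl
    unfold chkFlip at h
    rw [List.all_eq_true] at h
    have h1 := h p (List.mem_filter.mpr ⟨hp, by simp [hp1]⟩)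
    rw [List.all_eq_true] at h1
    have h2 := h1 q (List.mem_filter.mpr ⟨hq, by simp [hq1]⟩)
    unfold okPair at h2
    simp only [Bool.or_eq_true, beq_iff_eq, hpq, false_or, Bool.and_eq_true, Bool.not_eq_true',
      beq_eq_false_iff_ne] at h2
    obtain ⟨⟨⟨h3, h4⟩, h5⟩, h6⟩ := h2
    have hpl := chk_lt hL hp
    have hql := chk_lt hL hq
    rcases p with ⟨a, b⟩
    rcases q with ⟨c, d⟩
    simp only at *
    have ha : a < 20 := by omega
    have hc : c < 20 := by omega
    by_cases hac : a = c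
    · subst hac
      have hbd : b ≠ d := by rintro rfl; exact hpq rfl
      exact third_contra hL ha hpl.2 hql.2 hpl.1.ne hql.1.ne hbd hD he hf
        (h3.resolve_left (by simp))
    by_cases had : a = d
    · subst had
      have hbc : b ≠ c := by omega
      exact third_contra hL ha hpl.2 hc hpl.1.ne (by omega) hbc hD he (ed_comm a c ▸ hf)
        (h4.resolve_left (by simp))
    by_cases hbc : b = c
    · subst hbc
      exact third_contra hL hpl.2 ha hql.2 hpl.1.ne' hql.1.ne had hD (ed_comm b a ▸ he) hf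
        (h5.resolve_left (by simp))
    by_cases hbd : b = d
    · subst hbd
      exact third_contra hL hpl.2 ha hc hpl.1.ne' hql.1.ne' hac hD (ed_comm b a ▸ he)
        (ed_comm b c ▸ hf) (h6.resolve_left (by simp))
    have hcard : ({P a, P b, P c, P d} : Finset (ℝ × ℝ)).card = 4 := by
      rw [Finset.card_insert_of_notMem, Finset.card_insert_of_notMem, Finset.card_pair]
      · exact fun h => hql.1.ne (P_inj hc hql.2 h)
      · simp only [Finset.mem_insert, Finset.mem_singleton, not_or]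
        exact ⟨fun h => hbc (P_inj hpl.2 hc h), fun h => hbd (P_inj hpl.2 hql.2 h)⟩
      · simp only [Finset.mem_insert, Finset.mem_singleton, not_or]
        exact ⟨fun h => hpl.1.ne (P_inj ha hpl.2 h), fun h => hac (P_inj ha hc h),
          fun h => had (P_inj ha hql.2 h)⟩
    have hsub : ({P a, P b, P c, P d} : Finset (ℝ × ℝ)) ⊆ D := by
      intro z hz
      simp only [Finset.mem_insert, Finset.mem_singleton] at hz
      rcases hz with rfl | rfl | rfl | rfl
      · exact he (by simp [ed])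
      · exact he (by simp [ed])
      · exact hf (by simp [ed])
      · exact hf (by simp [ed])
    have := Finset.card_le_card hsub
    rw [hcard, hD.1] at this
    omega
  · ext e
    simp only [Set.mem_union, Set.mem_sdiff]
    tauto

end Bridge

section Lower

theorem nc {T : Set (Finset (ℝ × ℝ))} (hT : IsTriangulation S₀ T) {i j k l : ℕ} (hi : i < 20)
    (hj : j < 20) (hk : k < 20) (hl : l < 20) (hij : i ≠ j) (hkl : k ≠ l) (h1 : ed i j ∈ T)
    (h2 : ed k l ∈ T) (h : crossB i j k l = true) : False := by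
  have hc := cross_of hi hj hk hl hij hkl h
  apply hT.noncrossing _ h1 _ h2 _ hc
  intro heq
  have h3 : P i ∈ ed k l := by rw [← heq]; simp [ed]
  simp only [ed, Finset.mem_insert, Finset.mem_singleton] at h3
  unfold crossB at h
  simp only [Bool.and_eq_true, Bool.not_eq_true', beq_eq_false_iff_ne] at h
  rcases h3 with h3 | h3
  · exact h.1.1.1.1.1 (P_inj hi hk h3)
  · exact h.1.1.1.1.2 (P_inj hi hl h3)

theorem mx {T : Set (Finset (ℝ × ℝ))} (hT : IsTriangulation S₀ T) {i j : ℕ} (hi : i < 20)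
    (hj : j < 20) (hij : i ≠ j)
    (h : ∀ u v, u < 20 → v < 20 → u ≠ v → ed u v ∈ T → crossB u v i j = true → False) :
    ed i j ∈ T := by
  apply hT.maximal _ (isSeg_ed hi hj hij)
  intro f hf hne hcr
  obtain ⟨u, v, huv, hv, rfl⟩ := exists_ed (hT.seg f hf)
  have hcr' : Cross (ed u v) (ed i j) := by
    obtain ⟨z, h1, h2, h3, h4⟩ := hcr
    exact ⟨z, h2, h1, h4, h3⟩
  exact h u v (by omega) hv huv.ne hf (of_cross (by omega) hv hi hj huv.ne hij hne.symm hcr')

theorem indep {T T' : Set (Finset (ℝ × ℝ))} (hf : ParallelFlip S₀ T T') {a b c : ℕ} (ha : a < 20)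
    (hb : b < 20) (hc : c < 20) (hab : a ≠ b) (hac : a ≠ c) (hbc : b ≠ c) (h1 : ed a b ∈ T)
    (h2 : ed a c ∈ T) (h3 : ed b c ∈ T) (he : ∀ m < 20, insideB a b c m = false) :
    ed a b ∈ T' ∨ ed a c ∈ T' := by
  by_contra hcon
  push Not at hcon
  obtain ⟨_, _, E, E', hE, hind, hT'⟩ := hf
  have e1 : ed a b ∈ E := by
    by_contra hh
    apply hcon.1
    rw [hT']
    exact Or.inl ⟨h1, hh⟩
  have e2 : ed a c ∈ E := by
    by_contra hh
    apply hcon.2
    rw [hT']
    exact Or.inl ⟨h2, hh⟩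
  have hPab : P a ≠ P b := fun h => hab (P_inj ha hb h)
  have hPac : P a ≠ P c := fun h => hac (P_inj ha hc h)
  have hPbc : P b ≠ P c := fun h => hbc (P_inj hb hc h)
  have hne : ed a b ≠ ed a c := by
    intro h
    have : P b ∈ ed a c := by rw [← h]; simp [ed]
    simp only [ed, Finset.mem_insert, Finset.mem_singleton] at this
    rcases this with h | h
    · exact hPab h.symm
    · exact hPbc h
  apply hind _ e1 _ e2 hne
  refine ⟨{P a, P b, P c}, ⟨?_, ?_, ?_⟩, ?_, ?_⟩
  · rw [Finset.card_eq_three]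
    exact ⟨P a, P b, P c, hPab, hPac, hPbc, rfl⟩
  · intro e hesub hecard
    obtain ⟨x, y, hxy, rfl⟩ := Finset.card_eq_two.mp hecard
    have hx : x ∈ ({P a, P b, P c} : Finset (ℝ × ℝ)) := hesub (by simp)
    have hy : y ∈ ({P a, P b, P c} : Finset (ℝ × ℝ)) := hesub (by simp)
    simp only [Finset.mem_insert, Finset.mem_singleton] at hx hy
    rcases hx with rfl | rfl | rfl <;> rcases hy with rfl | rfl | rfl
    · exact absurd rfl hxy
    · exact h1
    · exact h2
    · rw [Finset.pair_comm]; exact h1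
    · exact absurd rfl hxy
    · exact h3
    · rw [Finset.pair_comm]; exact h2
    · rw [Finset.pair_comm]; exact h3
    · exact absurd rfl hxy
  · intro z hz hh
    obtain ⟨m, hm, rfl⟩ := Finset.mem_image.mp hz
    rw [Finset.mem_range] at hm
    by_contra hcon2
    simp only [Finset.mem_insert, Finset.mem_singleton, not_or] at hcon2
    have hma : m ≠ a := by rintro rfl; exact hcon2.1 rfl
    have hmb : m ≠ b := by rintro rfl; exact hcon2.2.1 rfl
    have hmc : m ≠ c := by rintro rfl; exact hcon2.2.2 rfl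
    have := inside_of_hull ha hb hc hm hab hac hbc hma hmb hmc (by simpa using hh)
    rw [he m hm] at this
    exact absurd this (by simp)
  · intro z hz
    simp only [ed, Finset.mem_insert, Finset.mem_singleton] at hz ⊢
    tauto
  · intro z hz
    simp only [ed, Finset.mem_insert, Finset.mem_singleton] at hz ⊢
    tauto

/-- The edges that a happy path keeps. -/
def Keeps (T : Set (Finset (ℝ × ℝ))) : Prop := (∀ i < 19, ed i (i + 1) ∈ T) ∧ ed 1 19 ∈ T

theorem fwd_fact {b u v : ℕ} (hb : 12 ≤ b) (hb' : b ≤ 18) (hu : u < 20) (hv : v < 20)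
    (h : crossB u v 1 b = true) : crossB u v 1 (b + 1) = true ∨ crossB u v 1 (b - 1) = true ∨
      crossB u v b (b + 1) = true ∨ crossB u v (b - 1) b = true := by
  have h0 := chkFwd_true
  unfold chkFwd at h0
  rw [List.all_eq_true] at h0
  have h1 := h0 (b - 12) (List.mem_range.mpr (by omega))
  rw [List.all_eq_true] at h1
  have h2 := h1 u (mem_rng hu)
  rw [List.all_eq_true] at h2
  have h3 := h2 v (mem_rng hv)
  have e1 : 12 + (b - 12) = b := by omega
  have e2 : 13 + (b - 12) = b + 1 := by omega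
  have e3 : 11 + (b - 12) = b - 1 := by omega
  rw [e1, e2, e3, h] at h3
  simp only [Bool.not_true, Bool.or_eq_true, Bool.false_eq_true, false_or] at h3
  tauto

theorem empty_fact1 {b y m : ℕ} (hb : 2 ≤ b) (hb' : b ≤ 9) (hy : 10 ≤ y) (hy' : y ≤ 19)
    (hm : m < 20) : insideB (b - 1) b y m = false := by
  have h0 := chkEmpty_true
  unfold chkEmpty at h0
  simp only [Bool.and_eq_true, List.all_eq_true, Bool.not_eq_true'] at h0
  have h1 := h0.1 (b - 2) (List.mem_range.mpr (by omega)) (y - 10)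
    (List.mem_range.mpr (by omega)) m (mem_rng hm)
  have e1 : b - 2 + 1 = b - 1 := by omega
  have e2 : b - 2 + 2 = b := by omega
  have e3 : 10 + (y - 10) = y := by omega
  rw [e1, e2, e3] at h1
  exact h1

theorem empty_fact2 {b m : ℕ} (hb : 11 ≤ b) (hb' : b ≤ 18) (hm : m < 20) :
    insideB 1 b (b + 1) m = false := by
  have h0 := chkEmpty_true
  unfold chkEmpty at h0
  simp only [Bool.and_eq_true, List.all_eq_true, Bool.not_eq_true'] at h0
  have h1 := h0.2 (b - 11) (List.mem_range.mpr (by omega)) m (mem_rng hm)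
  have e1 : 11 + (b - 11) = b := by omega
  have e2 : 12 + (b - 11) = b + 1 := by omega
  rw [e1, e2] at h1
  exact h1

theorem apex_fact {b y u v : ℕ} (hb : 2 ≤ b) (hb' : b ≤ 9) (hy : 10 ≤ y) (hy' : y ≤ 19)
    (hu : u < 20) (hv : v < 20) (h : crossB u v b y = true) :
    crossB u v (b - 1) y = true ∨ crossB u v (b - 1) b = true ∨
      (u = b - 1 ∧ 10 ≤ v ∧ v < y) ∨ (v = b - 1 ∧ 10 ≤ u ∧ u < y) := by
  have h0 := chkApex_true
  unfold chkApex at h0
  rw [List.all_eq_true] at h0
  have h1 := h0 (b - 2) (List.mem_range.mpr (by omega))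
  rw [List.all_eq_true] at h1
  have h2 := h1 (y - 10) (List.mem_range.mpr (by omega))
  rw [List.all_eq_true] at h2
  have h3 := h2 u (mem_rng hu)
  rw [List.all_eq_true] at h3
  have h4 := h3 v (mem_rng hv)
  have e1 : b - 2 + 1 = b - 1 := by omega
  have e2 : b - 2 + 2 = b := by omega
  have e3 : 10 + (y - 10) = y := by omega
  rw [e1, e2, e3, h] at h4
  simp only [Bool.not_true, Bool.or_eq_true, Bool.false_eq_true, false_or, Bool.and_eq_true,
    beq_iff_eq, decide_eq_true_eq] at h4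
  tauto

theorem cr_fact {b y : ℕ} (hb : 2 ≤ b) (hb' : b ≤ 8) (hy : 10 ≤ y) (hy' : y ≤ 18) :
    crossB (b - 1) y 19 b = true ∧ crossB b y 19 (b + 1) = true := by
  have h0 := chkCr_true
  unfold chkCr at h0
  simp only [Bool.and_eq_true, List.all_eq_true] at h0
  have h1 := h0.2 (b - 2) (List.mem_range.mpr (by omega)) (y - 10)
    (List.mem_range.mpr (by omega))
  have e1 : b - 2 + 1 = b - 1 := by omega
  have e2 : b - 2 + 2 = b := by omega
  have e3 : 10 + (y - 10) = y := by omega
  have e4 : b - 2 + 3 = b + 1 := by omega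
  rw [e1, e2, e3, e4] at h1
  exact h1

theorem cr_fact0 : crossB 1 18 19 2 = true := by
  have h0 := chkCr_true
  unfold chkCr at h0
  simp only [Bool.and_eq_true] at h0
  exact h0.1

/-- Every edge of the left chain has an apex on the right chain or at the bottom. -/
theorem apex {T : Set (Finset (ℝ × ℝ))} (hT : IsTriangulation S₀ T) (hK : Keeps T) :
    ∀ b, 2 ≤ b → b ≤ 9 → ∃ y, 10 ≤ y ∧ y ≤ 19 ∧ ed (b - 1) y ∈ T ∧ ed b y ∈ T := by
  have step : ∀ b, 2 ≤ b → b ≤ 9 → (∃ y, 10 ≤ y ∧ y ≤ 19 ∧ ed (b - 1) y ∈ T) →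
      ∃ y, 10 ≤ y ∧ y ≤ 19 ∧ ed (b - 1) y ∈ T ∧ ed b y ∈ T := by
    intro b hb hb' hex
    classical
    set y := Nat.find hex with hy
    obtain ⟨h1, h2, h3⟩ := Nat.find_spec hex
    rw [← hy] at h1 h2 h3
    refine ⟨y, h1, h2, h3, ?_⟩
    apply mx hT (by omega) (by omega) (by omega)
    intro u v hu hv huv huvT hcr
    have hKb : ed (b - 1) b ∈ T := by
      have := hK.1 (b - 1) (by omega)
      rwa [show b - 1 + 1 = b by omega] at this
    rcases apex_fact hb hb' h1 h2 hu hv hcr with h4 | h4 | h4 | h4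
    · exact nc hT hu hv (by omega) (by omega) huv (by omega) huvT h3 h4
    · exact nc hT hu hv (by omega) (by omega) huv (by omega) huvT hKb h4
    · obtain ⟨rfl, h5, h6⟩ := h4
      exact Nat.find_min hex (hy ▸ h6) ⟨h5, by omega, huvT⟩
    · obtain ⟨rfl, h5, h6⟩ := h4
      exact Nat.find_min hex (hy ▸ h6) ⟨h5, by omega, ed_comm u _ ▸ huvT⟩
  intro b hb
  induction b, hb using Nat.le_induction with
  | base =>
    intro hb'
    exact step 2 le_rfl hb' ⟨19, by norm_num, le_rfl, hK.2⟩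
  | succ b hb ih =>
    intro hb'
    obtain ⟨y, h1, h2, _, h4⟩ := ih (by omega)
    exact step (b + 1) (by omega) hb' ⟨y, h1, h2, by simpa using h4⟩

theorem fwd_step {T T' : Set (Finset (ℝ × ℝ))} (hf : ParallelFlip S₀ T T') (hK : Keeps T)
    (hK' : Keeps T') {k : ℕ} (hk : 11 ≤ k) (h : ∀ b, k ≤ b → b ≤ 19 → ed 1 b ∈ T) :
    ∀ b, k + 1 ≤ b → b ≤ 19 → ed 1 b ∈ T' := by
  intro b hb hb'
  by_cases hb19 : b = 19
  · rw [hb19]; exact hK'.2
  have hb18 : b ≤ 18 := by omega
  by_contra hcon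
  have k1 : ed b (b + 1) ∈ T := hK.1 b (by omega)
  have k2 : ed (b - 1) b ∈ T := by
    have := hK.1 (b - 1) (by omega)
    rwa [show b - 1 + 1 = b by omega] at this
  have k1' : ed b (b + 1) ∈ T' := hK'.1 b (by omega)
  have k2' : ed (b - 1) b ∈ T' := by
    have := hK'.1 (b - 1) (by omega)
    rwa [show b - 1 + 1 = b by omega] at this
  have h1 : ed 1 (b + 1) ∈ T' := by
    rcases indep hf (a := 1) (b := b) (c := b + 1) (by norm_num) (by omega) (by omega) (by omega)
      (by omega) (by omega) (h b (by omega) (by omega)) (h (b + 1) (by omega) (by omega)) k1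
      (fun m hm => empty_fact2 (by omega) hb18 hm) with h2 | h2
    · exact absurd h2 hcon
    · exact h2
  have h2 : ed 1 (b - 1) ∈ T' := by
    rcases indep hf (a := 1) (b := b - 1) (c := b) (by norm_num) (by omega) (by omega) (by omega)
      (by omega) (by omega) (h (b - 1) (by omega) (by omega)) (h b (by omega) (by omega)) k2
      (fun m hm => by
        have := empty_fact2 (b := b - 1) (by omega) (by omega) hm
        rwa [show b - 1 + 1 = b by omega] at this) with h2 | h2
    · exact h2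
    · exact absurd h2 hcon
  apply hcon
  apply mx hf.2.1 (by norm_num) (by omega) (by omega)
  intro u v hu hv huv huvT hcr
  rcases fwd_fact (by omega) hb18 hu hv hcr with h4 | h4 | h4 | h4
  · exact nc hf.2.1 hu hv (by norm_num) (by omega) huv (by omega) huvT h1 h4
  · exact nc hf.2.1 hu hv (by norm_num) (by omega) huv (by omega) huvT h2 h4
  · exact nc hf.2.1 hu hv (by omega) (by omega) huv (by omega) huvT k1' h4
  · exact nc hf.2.1 hu hv (by omega) (by omega) huv (by omega) huvT k2' h4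

theorem bwd_step {T T' : Set (Finset (ℝ × ℝ))} (hf : ParallelFlip S₀ T T') (hK : Keeps T)
    {b : ℕ} (hb : 2 ≤ b) (hb' : b ≤ 8) (h1 : ed 19 b ∈ T') (h2 : ed 19 (b + 1) ∈ T') :
    ed 19 b ∈ T := by
  obtain ⟨y, hy, hy', h3, h4⟩ := apex hf.1 hK b hb (by omega)
  by_cases hy19 : y = 19
  · rw [hy19] at h4
    rw [ed_comm]
    exact h4
  exfalso
  have hKb : ed (b - 1) b ∈ T := by
    have := hK.1 (b - 1) (by omega)
    rwa [show b - 1 + 1 = b by omega] at this
  obtain ⟨c1, c2⟩ := cr_fact hb hb' hy (by omega : y ≤ 18)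
  have hemp : ∀ m < 20, insideB y (b - 1) b m = false := by
    intro m hm
    by_contra hcon
    rw [Bool.not_eq_false] at hcon
    obtain ⟨hma, hmb, hmc, hh⟩ := hull_of_inside (by omega) (by omega) (by omega) hm (by omega)
      (by omega) (by omega) hcon
    have e : ({P y, P (b - 1), P b} : Set (ℝ × ℝ)) = {P (b - 1), P b, P y} := by
      ext z; simp only [Set.mem_insert_iff, Set.mem_singleton_iff]; tauto
    rw [e] at hh
    have := inside_of_hull (by omega) (by omega) (by omega) hm (by omega) (by omega) (by omega)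
      hmb hmc hma hh
    rw [empty_fact1 hb (by omega) hy hy' hm] at this
    exact absurd this (by simp)
  rcases indep hf (a := y) (b := b - 1) (c := b) (by omega) (by omega) (by omega) (by omega)
      (by omega) (by omega) (ed_comm y _ ▸ h3) (ed_comm y _ ▸ h4) hKb hemp with h5 | h5
  · rw [ed_comm] at h5
    exact nc hf.2.1 (by omega) (by omega) (by norm_num) (by omega) (by omega) (by omega) h5 h1 c1
  · rw [ed_comm] at h5
    exact nc hf.2.1 (by omega) (by omega) (by norm_num) (by omega) (by omega) (by omega) h5 h2 c2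

/-- A path that keeps the edges `Keeps` from the first to the last triangulation is long. -/
theorem long {n : ℕ} {τ : ℕ → Set (Finset (ℝ × ℝ))}
    (hp : ∀ i < n, ParallelFlip S₀ (τ i) (τ (i + 1))) (hn : IsTriangulation S₀ (τ n))
    (hK : ∀ i ≤ n, Keeps (τ i)) (h0 : ∀ b, 11 ≤ b → b ≤ 19 → ed 1 b ∈ τ 0)
    (h1 : ∀ b, 2 ≤ b → b ≤ 9 → ed 19 b ∈ τ n) : 15 ≤ n := by
  by_contra hcon
  have fwd : ∀ i, i ≤ n → ∀ b, 11 + i ≤ b → b ≤ 19 → ed 1 b ∈ τ i := by
    intro i
    induction i with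
    | zero => intro _ b hb hb'; exact h0 b (by omega) hb'
    | succ i ih =>
      intro hi b hb hb'
      exact fwd_step (hp i (by omega)) (hK i (by omega)) (hK (i + 1) hi) (k := 11 + i) (by omega)
        (ih (by omega)) b (by omega) hb'
  have bwd : ∀ i, i ≤ n → ∀ b, 2 ≤ b → b ≤ 9 - i → ed 19 b ∈ τ (n - i) := by
    intro i
    induction i with
    | zero => intro _ b hb hb'; exact h1 b hb (by omega)
    | succ i ih =>
      intro hi b hb hb'
      have hf := hp (n - (i + 1)) (by omega)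
      have e : n - (i + 1) + 1 = n - i := by omega
      rw [e] at hf
      exact bwd_step hf (hK _ (by omega)) hb (by omega) (ih (by omega) b hb (by omega))
        (ih (by omega) (b + 1) (by omega) (by omega))
  have hmid : ∃ i, i ≤ n ∧ i ≤ 7 ∧ n - i ≤ 7 := by
    by_cases h : n ≤ 7
    · exact ⟨n, le_rfl, h, by omega⟩
    · exact ⟨7, by omega, le_rfl, by omega⟩
  obtain ⟨i, hi, hi7, hni⟩ := hmid
  have e1 := fwd i hi 18 (by omega) (by norm_num)
  have e2 := bwd (n - i) (by omega) 2 le_rfl (by omega)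
  rw [show n - (n - i) = i by omega] at e2
  have hTi : IsTriangulation S₀ (τ i) := by
    rcases Nat.lt_or_ge i n with h | h
    · exact (hp i h).1
    · rw [show i = n by omega]; exact hn
  exact nc hTi (by norm_num) (by norm_num) (by norm_num) (by norm_num) (by norm_num) (by norm_num)
    e1 e2 cr_fact0

end Lower

/-- The path of length 14. -/
noncomputable def pth : ℕ → Set (Finset (ℝ × ℝ))
  | 0 => TS L0
  | 1 => TS L1
  | 2 => TS L2
  | 3 => TS L3
  | 4 => TS L4
  | 5 => TS L5
  | 6 => TS L6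
  | 7 => TS L7
  | 8 => TS L8
  | 9 => TS L9
  | 10 => TS L10
  | 11 => TS L11
  | 12 => TS L12
  | 13 => TS L13
  | _ => TS L14

theorem isPath_pth : IsPath S₀ (TS L0) (TS L14) 14 pth := by
  refine ⟨rfl, rfl, ?_⟩
  intro i hi
  interval_cases i
  · exact flip_of_chk chk0 chk1 flip0
  · exact flip_of_chk chk1 chk2 flip1
  · exact flip_of_chk chk2 chk3 flip2
  · exact flip_of_chk chk3 chk4 flip3
  · exact flip_of_chk chk4 chk5 flip4
  · exact flip_of_chk chk5 chk6 flip5
  · exact flip_of_chk chk6 chk7 flip6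
  · exact flip_of_chk chk7 chk8 flip7
  · exact flip_of_chk chk8 chk9 flip8
  · exact flip_of_chk chk9 chk10 flip9
  · exact flip_of_chk chk10 chk11 flip10
  · exact flip_of_chk chk11 chk12 flip11
  · exact flip_of_chk chk12 chk13 flip12
  · exact flip_of_chk chk13 chk14 flip13

/-- Membership of the pairs in the two lists. -/
def chkMem : Bool :=
  ((List.range 19).all fun i => L0.contains (i, i + 1) && L14.contains (i, i + 1)) &&
  L0.contains (1, 19) && L14.contains (1, 19) &&
  ((List.range 9).all fun i => L0.contains (1, 11 + i)) &&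
  ((List.range 8).all fun i => L14.contains (i + 2, 19))

theorem chkMem_true : chkMem = true := by decide +kernel

theorem happy_long {n : ℕ} {τ : ℕ → Set (Finset (ℝ × ℝ))} (hp : IsPath S₀ (TS L0) (TS L14) n τ)
    (hh : ∀ i, 0 < i → i < n → TS L0 ∩ TS L14 ⊆ τ i) : 15 ≤ n := by
  have h0 := chkMem_true
  unfold chkMem at h0
  simp only [Bool.and_eq_true, List.all_eq_true, List.contains_iff_mem] at h0
  obtain ⟨⟨⟨⟨h1, h2⟩, h3⟩, h4⟩, h5⟩ := h0
  obtain ⟨hs, ht, hf⟩ := hp
  have hc : Keeps (TS L0 ∩ TS L14) := by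
    refine ⟨?_, ?_⟩
    · intro i hi
      have := h1 i (List.mem_range.mpr hi)
      exact ⟨⟨_, this.1, rfl⟩, ⟨_, this.2, rfl⟩⟩
    · exact ⟨⟨_, h2, rfl⟩, ⟨_, h3, rfl⟩⟩
  apply long hf
  · rw [ht]; exact isTri_of_chk chk14
  · intro i hi
    have hsub : TS L0 ∩ TS L14 ⊆ τ i := by
      rcases Nat.eq_zero_or_pos i with h | h
      · rw [h, hs]; exact Set.inter_subset_left
      · rcases Nat.lt_or_ge i n with h' | h'
        · exact hh i h h'
        · rw [show i = n by omega, ht]; exact Set.inter_subset_right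
    exact ⟨fun j hj => hsub (hc.1 j hj), hsub hc.2⟩
  · intro b hb hb'
    rw [hs]
    have := h4 (b - 11) (List.mem_range.mpr (by omega))
    rw [show 11 + (b - 11) = b by omega] at this
    exact ⟨_, this, rfl⟩
  · intro b hb hb'
    rw [ht, ed_comm]
    have := h5 (b - 2) (List.mem_range.mpr (by omega))
    rw [show b - 2 + 2 = b by omega] at this
    exact ⟨_, this, rfl⟩

theorem not_collinear {i j k : ℕ} (hi : i < 20) (hj : j < 20) (hk : k < 20) (hij : i ≠ j)
    (hik : i ≠ k) (hjk : j ≠ k) : ¬ Collinear ℝ ({P i, P j, P k} : Set (ℝ × ℝ)) := by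
  intro h
  rw [collinear_iff_of_mem (p₀ := P i) (by simp)] at h
  obtain ⟨v, hv⟩ := h
  obtain ⟨r, hr⟩ := hv (P j) (by simp)
  obtain ⟨s, hs⟩ := hv (P k) (by simp)
  apply det_ne hi hj hk hij hik hjk
  unfold det
  rw [hr, hs]
  simp only [vadd_eq_add, Prod.fst_add, Prod.snd_add, Prod.smul_fst, Prod.smul_snd, smul_eq_mul]
  ring

/-- The happy edge property fails for parallel flips. There is a set `S` of 20 points in the plane,
no three on a line, and two triangulations `T`, `T'` of `S` such that `T` and `T'` are joined by a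
shortest path of parallel flips, and every shortest path from `T` to `T'` has an intermediate
triangulation that misses some edge common to `T` and `T'`. In fact there is a path of length 14,
and every path all of whose intermediate triangulations contain `T ∩ T'` has length at
least 15. -/
theorem result : ∃ (S : Finset (ℝ × ℝ)) (T T' : Set (Finset (ℝ × ℝ))),
    S.card = 20 ∧
    (∀ a ∈ S, ∀ b ∈ S, ∀ c ∈ S, a ≠ b → a ≠ c → b ≠ c → ¬ Collinear ℝ ({a, b, c} : Set (ℝ × ℝ))) ∧
    IsTriangulation S T ∧ IsTriangulation S T' ∧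
    (∃ n τ, IsShortestPath S T T' n τ) ∧
    (∀ n τ, IsShortestPath S T T' n τ → ∃ i, 0 < i ∧ i < n ∧ ∃ e ∈ T ∩ T', e ∉ τ i) ∧
    (∃ τ, IsPath S T T' 14 τ) ∧
    (∀ n τ, IsPath S T T' n τ → (∀ i, 0 < i → i < n → T ∩ T' ⊆ τ i) → 15 ≤ n) := by
  refine ⟨S₀, TS L0, TS L14, ?_, ?_, isTri_of_chk chk0, isTri_of_chk chk14, ?_, ?_,
    ⟨pth, isPath_pth⟩, fun n τ hp hh => happy_long hp hh⟩
  · unfold S₀
    rw [Finset.card_image_of_injOn, Finset.card_range]
    intro i hi j hj hij
    exact P_inj (Finset.mem_range.mp hi) (Finset.mem_range.mp hj) hij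
  · intro a ha b hb c hc hab hac hbc
    obtain ⟨i, hi, rfl⟩ := Finset.mem_image.mp ha
    obtain ⟨j, hj, rfl⟩ := Finset.mem_image.mp hb
    obtain ⟨k, hk, rfl⟩ := Finset.mem_image.mp hc
    exact not_collinear (Finset.mem_range.mp hi) (Finset.mem_range.mp hj) (Finset.mem_range.mp hk)
      (by rintro rfl; exact hab rfl) (by rintro rfl; exact hac rfl) (by rintro rfl; exact hbc rfl)
  · classical
    have hex : ∃ n, ∃ τ, IsPath S₀ (TS L0) (TS L14) n τ := ⟨14, pth, isPath_pth⟩
    obtain ⟨τ, hτ⟩ := Nat.find_spec hex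
    exact ⟨Nat.find hex, τ, hτ, fun m σ hσ => Nat.find_min' hex ⟨σ, hσ⟩⟩
  · intro n τ hτ
    by_contra hcon
    push Not at hcon
    have h1 : 15 ≤ n := by
      apply happy_long hτ.1
      intro i hi hin e he
      exact hcon i hi hin e he
    have h2 := hτ.2 14 pth isPath_pth
    omega

end Pool.Agent.Results.MP_797cb5_co.UnhappyEdge
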